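import Mathlib

set_option autoImplicit false

namespace Pool.Agent.Results.MP_64d5df_nt.TranslationFails

/-- Distance from a real number to the nearest integer. -/
noncomputable def nd (x : ℝ) : ℝ := |x - (round x : ℝ)|

/-- The loneliness gap of a finite set of speeds. -/
noncomputable def gap (V : Finset ℕ) : ℝ := ⨆ t : ℝ, ⨅ v : V, nd (t * (v.1 : ℝ))

/-- The translate of a set of speeds by a. -/
def translate (a : ℕ) (V : Finset ℕ) : Finset ℕ := V.image (fun v => a + v)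

/-- V is a set of n distinct positive integers. -/
def IsSpeedSet (n : ℕ) (V : Finset ℕ) : Prop := V.card = n ∧ ∀ v ∈ V, 0 < v

lemma nd_nonneg (x : ℝ) : 0 ≤ nd x := abs_nonneg _

lemma nd_le_half (x : ℝ) : nd x ≤ 1 / 2 := abs_sub_round x

lemma bddBelow_inner (V : Finset ℕ) (t : ℝ) :
    BddBelow (Set.range (fun v : V => nd (t * (v.1 : ℝ)))) :=
  ⟨0, by rintro _ ⟨v, rfl⟩; exact nd_nonneg _⟩

lemma inner_le (V : Finset ℕ) (t : ℝ) {v : ℕ} (hv : v ∈ V) :
    (⨅ v : V, nd (t * (v.1 : ℝ))) ≤ nd (t * (v : ℝ)) :=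
  ciInf_le (bddBelow_inner V t) ⟨v, hv⟩

lemma bddAbove_outer (V : Finset ℕ) (hV : V.Nonempty) :
    BddAbove (Set.range (fun t : ℝ => ⨅ v : V, nd (t * (v.1 : ℝ)))) := by
  refine ⟨1 / 2, ?_⟩
  rintro _ ⟨t, rfl⟩
  obtain ⟨v, hv⟩ := hV
  exact (inner_le V t hv).trans (nd_le_half _)

lemma gap_le (V : Finset ℕ) (c : ℝ) (h : ∀ t : ℝ, ∃ v ∈ V, nd (t * (v : ℝ)) ≤ c) :
    gap V ≤ c := by
  unfold gap
  refine ciSup_le (fun t => ?_)
  obtain ⟨v, hv, hle⟩ := h t
  exact (inner_le V t hv).trans hle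

lemma le_gap (V : Finset ℕ) (hV : V.Nonempty) (c : ℝ) (t : ℝ)
    (h : ∀ v ∈ V, c ≤ nd (t * (v : ℝ))) : c ≤ gap V := by
  have : Nonempty V := ⟨⟨hV.choose, hV.choose_spec⟩⟩
  unfold gap
  refine le_ciSup_of_le (bddAbove_outer V hV) t ?_
  exact le_ciInf (fun v => h v.1 v.2)

lemma nd_half_add (k : ℤ) (s : ℝ) (h0 : 0 ≤ s) (h1 : s ≤ 1 / 2) :
    nd ((k : ℝ) + 1 / 2 + s) = 1 / 2 - s := by
  unfold nd
  have hr : round ((k : ℝ) + 1 / 2 + s) = k + 1 := by
    rw [round_eq]
    rw [Int.floor_eq_iff]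
    push_cast
    constructor <;> linarith
  rw [hr]
  push_cast
  rw [abs_of_nonpos (by linarith)]
  ring

/-- The set of speeds used: the odd numbers `1,3,…,2n-3` and the even number `2m`. -/
def W (n m : ℕ) : Finset ℕ := insert (2 * m) ((Finset.range (n - 1)).image (fun i => 2 * i + 1))

lemma mem_W {n m v : ℕ} : v ∈ W n m ↔ v = 2 * m ∨ ∃ i < n - 1, 2 * i + 1 = v := by
  simp [W]

lemma card_W (n m : ℕ) (hn : 1 ≤ n) : (W n m).card = n := by
  unfold W
  rw [Finset.card_insert_of_notMem]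
  · rw [Finset.card_image_of_injective]
    · simp; omega
    · intro a b h; simp at h; omega
  · simp only [Finset.mem_image, Finset.mem_range, not_exists, not_and]
    intro i _ h
    omega

lemma gap_W_lower (n m : ℕ) (hn : 2 ≤ n) (hm : 1 ≤ m) (hmn : n ≤ m) :
    1 / 2 - (n : ℝ) / (2 * m) ≤ gap (W n m) := by
  have hm0 : (0 : ℝ) < m := by exact_mod_cast hm
  have hnm : (n : ℝ) ≤ m := by exact_mod_cast hmn
  refine le_gap _ ⟨2 * m, by rw [mem_W]; left; rfl⟩ _ (1 / 2 + 1 / (4 * m)) ?_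
  intro v hv
  rw [mem_W] at hv
  rcases hv with rfl | ⟨i, hi, rfl⟩
  · have h : (1 / 2 + 1 / (4 * (m : ℝ))) * ((2 * m : ℕ) : ℝ) = ((m : ℤ) : ℝ) + 1 / 2 + 0 := by
      push_cast; field_simp; ring
    rw [h, nd_half_add _ _ le_rfl (by norm_num)]
    have : 0 ≤ (n : ℝ) / (2 * m) := by positivity
    linarith
  · have h : (1 / 2 + 1 / (4 * (m : ℝ))) * ((2 * i + 1 : ℕ) : ℝ)
        = ((i : ℤ) : ℝ) + 1 / 2 + (2 * i + 1) / (4 * m) := by
      push_cast; field_simp
    have hin : (2 * (i : ℝ) + 1) ≤ 2 * n := by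
      have : 2 * i + 1 ≤ 2 * n := by omega
      exact_mod_cast this
    have hb : (2 * (i : ℝ) + 1) / (4 * m) ≤ (n : ℝ) / (2 * m) := by
      rw [div_le_div_iff₀ (by positivity) (by positivity)]
      nlinarith
    have hb2 : (n : ℝ) / (2 * m) ≤ 1 / 2 := by
      rw [div_le_div_iff₀ (by positivity) (by positivity)]
      nlinarith
    rw [h, nd_half_add _ _ (by positivity) (hb.trans hb2)]
    linarith

lemma gap_translate_W (n m : ℕ) (hn : 2 ≤ n) : gap (translate 1 (W n m)) ≤ 1 / n := by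
  refine gap_le _ _ (fun t => ?_)
  obtain ⟨k, hk0, hkn, hk⟩ := Real.exists_nat_abs_mul_sub_round_le (2 * t) (n := n - 1) (by omega)
  refine ⟨2 * k, ?_, ?_⟩
  · unfold translate
    rw [Finset.mem_image]
    refine ⟨2 * (k - 1) + 1, ?_, by omega⟩
    rw [mem_W]
    right
    exact ⟨k - 1, by omega, rfl⟩
  · unfold nd
    have h1 : t * ((2 * k : ℕ) : ℝ) = (k : ℝ) * (2 * t) := by push_cast; ring
    rw [h1]
    refine hk.trans (le_of_eq ?_)
    congr 1
    rw [Nat.cast_sub (by omega)]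
    push_cast
    ring

lemma gap_one_three : (1 : ℝ) / 2 ≤ gap {1, 3} := by
  refine le_gap _ ⟨1, by simp⟩ _ (1 / 2) ?_
  intro v hv
  simp only [Finset.mem_insert, Finset.mem_singleton] at hv
  rcases hv with rfl | rfl
  · have := nd_half_add 0 0 le_rfl (by norm_num)
    norm_num at this ⊢
    rw [this]
  · have := nd_half_add 1 0 le_rfl (by norm_num)
    norm_num at this ⊢
    rw [this]

lemma gap_two_four : gap (translate 1 {1, 3}) ≤ 1 / 3 := by
  refine gap_le _ _ (fun t => ?_)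
  obtain ⟨k, hk0, hkn, hk⟩ := Real.exists_nat_abs_mul_sub_round_le (2 * t) (n := 2) (by norm_num)
  refine ⟨2 * k, ?_, ?_⟩
  · have : k = 1 ∨ k = 2 := by omega
    rcases this with rfl | rfl <;> decide
  · unfold nd
    have h1 : t * ((2 * k : ℕ) : ℝ) = (k : ℝ) * (2 * t) := by push_cast; ring
    rw [h1]
    refine hk.trans (le_of_eq ?_)
    norm_num

/-- For every `n ≥ 2` the inequality `κ(a+V) ≥ κ(V)` fails for some `n`-set `V` with `a = 1`;
for every `n ≥ 3` it fails even for `V` with `gcd V = gcd (1+V) = 1`, with `κ(V)` arbitrarily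
close to its largest possible value `1/2` while `κ(1+V) ≤ 1/n`. -/
theorem result :
    (∀ n : ℕ, 2 ≤ n → ∃ V : Finset ℕ, IsSpeedSet n V ∧ IsSpeedSet n (translate 1 V) ∧
      gap (translate 1 V) < gap V) ∧
    (∀ n : ℕ, 3 ≤ n → ∀ ε : ℝ, 0 < ε → ∃ V : Finset ℕ, IsSpeedSet n V ∧
      IsSpeedSet n (translate 1 V) ∧ V.gcd id = 1 ∧ (translate 1 V).gcd id = 1 ∧
      1 / 2 - ε < gap V ∧ gap (translate 1 V) ≤ 1 / n ∧ gap (translate 1 V) < gap V) := by
  have hcard : ∀ (n : ℕ) (V : Finset ℕ), IsSpeedSet n V → IsSpeedSet n (translate 1 V) := by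
    intro n V hV
    refine ⟨?_, ?_⟩
    · unfold translate
      rw [Finset.card_image_of_injective _ (fun a b h => by simpa using h)]
      exact hV.1
    · intro v hv
      unfold translate at hv
      rw [Finset.mem_image] at hv
      obtain ⟨w, _, rfl⟩ := hv
      omega
  have main : ∀ n : ℕ, 3 ≤ n → ∀ ε : ℝ, 0 < ε → ∃ V : Finset ℕ, IsSpeedSet n V ∧
      IsSpeedSet n (translate 1 V) ∧ V.gcd id = 1 ∧ (translate 1 V).gcd id = 1 ∧
      1 / 2 - ε < gap V ∧ gap (translate 1 V) ≤ 1 / n ∧ gap (translate 1 V) < gap V := by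
    intro n hn ε hε
    obtain ⟨m, hm⟩ := exists_nat_gt (max ((n : ℝ) / ε) (6 * n))
    have hm1 : (n : ℝ) / ε < m := lt_of_le_of_lt (le_max_left _ _) hm
    have hm2 : (6 * n : ℝ) < m := lt_of_le_of_lt (le_max_right _ _) hm
    have hn0 : (3 : ℝ) ≤ n := by exact_mod_cast hn
    have hmn : 6 * n < m := by exact_mod_cast hm2
    have hm0 : (0 : ℝ) < m := by linarith
    have hs : IsSpeedSet n (W n m) := by
      refine ⟨card_W n m (by omega), ?_⟩
      intro v hv
      rw [mem_W] at hv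
      rcases hv with rfl | ⟨i, _, rfl⟩ <;> omega
    have hlow := gap_W_lower n m (by omega) (by omega) (by omega)
    have hup := gap_translate_W n m (by omega)
    refine ⟨W n m, hs, hcard _ _ hs, ?_, ?_, ?_, hup, ?_⟩
    · apply Nat.dvd_one.mp
      have h1 : (W n m).gcd id ∣ id 1 := Finset.gcd_dvd (by
        rw [mem_W]; right; exact ⟨0, by omega, rfl⟩)
      simpa using h1
    · apply Nat.dvd_one.mp
      have h1 : (translate 1 (W n m)).gcd id ∣ id 2 := Finset.gcd_dvd (by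
        unfold translate
        rw [Finset.mem_image]
        exact ⟨1, by rw [mem_W]; right; exact ⟨0, by omega, rfl⟩, rfl⟩)
      have h2 : (translate 1 (W n m)).gcd id ∣ id (1 + 2 * m) := Finset.gcd_dvd (by
        unfold translate
        rw [Finset.mem_image]
        exact ⟨2 * m, by rw [mem_W]; left; rfl, rfl⟩)
      simp only [id] at h1 h2
      have h3 : (translate 1 (W n m)).gcd id ∣ 2 * m := Dvd.dvd.mul_right h1 m
      exact (Nat.dvd_add_left h3).mp h2
    · have : (n : ℝ) / (2 * m) < ε := by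
        rw [div_lt_iff₀ (by positivity)]
        rw [div_lt_iff₀ hε] at hm1
        nlinarith
      linarith
    · have h1 : (n : ℝ) / (2 * m) < 1 / 12 := by
        rw [div_lt_div_iff₀ (by positivity) (by positivity)]
        nlinarith
      have h2 : (1 : ℝ) / n ≤ 1 / 3 := by
        apply one_div_le_one_div_of_le <;> linarith
      linarith
  refine ⟨?_, main⟩
  intro n hn
  rcases Nat.lt_or_ge n 3 with h | h
  · have hn2 : n = 2 := by omega
    subst hn2
    have hs : IsSpeedSet 2 {1, 3} := ⟨by decide, by decide⟩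
    exact ⟨{1, 3}, hs, hcard _ _ hs, by
      have := gap_one_three
      have := gap_two_four
      linarith⟩
  · obtain ⟨V, h1, h2, _, _, _, _, h3⟩ := main n h 1 one_pos
    exact ⟨V, h1, h2, h3⟩

end Pool.Agent.Results.MP_64d5df_nt.TranslationFails
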